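import Mathlib
import Pool.Agent.Helper52.SM.Goals

set_option autoImplicit false

/-!
Project SM (MP_34c247_lc), packet SM-LVM: the leaves of a stage.
-/

namespace Pool.Agent.Helper81.SM

open Pool.Agent.Helper78 Pool.Agent.Helper52.SM

/-- One step of the tree. -/
def stp (act : PM.View → ℕ) (x : List Bool) (i : ℕ) (M : PM.Mem) (a : List Bool) :
    List (List Bool) :=
  if 4 ≤ act (x, i, M, a) then [a ++ [false], a ++ [true]] else [a]

section
variable {act : PM.View → ℕ} {x : List Bool} {i : ℕ} {M : PM.Mem}

theorem lvM_zero : lvM act x i M 0 = [[]] := rfl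

theorem lvM_succ (k : ℕ) : lvM act x i M (k + 1) = (lvM act x i M k).flatMap (stp act x i M) := by
  unfold lvM
  rw [Function.iterate_succ_apply']
  rfl

theorem mem_stp {a c : List Bool} : c ∈ stp act x i M a ↔
    (4 ≤ act (x, i, M, a) ∧ ∃ v : Bool, c = a ++ [v]) ∨ (¬ 4 ≤ act (x, i, M, a) ∧ c = a) := by
  unfold stp
  split_ifs with h
  · simp only [List.mem_cons, List.not_mem_nil, or_false, h, true_and, not_true_eq_false,
      false_and]
    constructor
    · rintro (h1 | h1)
      · exact ⟨false, h1⟩
      · exact ⟨true, h1⟩
    · rintro ⟨v, h1⟩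
      cases v
      · exact Or.inl h1
      · exact Or.inr h1
  · simp [h]

theorem mem_lvM {k : ℕ} {a : List Bool} (ha : a ∈ lvM act x i M k) :
    a.length ≤ k ∧ (a.length = k ∨ ¬ 4 ≤ act (x, i, M, a)) := by
  induction k generalizing a with
  | zero =>
    rw [lvM_zero, List.mem_singleton] at ha
    subst ha
    exact ⟨le_refl _, Or.inl rfl⟩
  | succ k ih =>
    rw [lvM_succ, List.mem_flatMap] at ha
    obtain ⟨c, hc, hac⟩ := ha
    obtain ⟨h1, h2⟩ := ih hc
    rcases mem_stp.1 hac with ⟨h3, v, rfl⟩ | ⟨h3, rfl⟩
    · have h4 : c.length = k := by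
        rcases h2 with h2 | h2
        · exact h2
        · exact absurd h3 h2
      have h5 : (c ++ [v]).length = k + 1 := by simp [h4]
      exact ⟨h5.le, Or.inl h5⟩
    · exact ⟨by omega, Or.inr h3⟩

theorem length_flatMap_le (L : List (List Bool)) :
    (L.flatMap (stp act x i M)).length ≤ 2 * L.length := by
  induction L with
  | nil => simp
  | cons a L ih =>
    rw [List.flatMap_cons, List.length_append, List.length_cons]
    have h1 : (stp act x i M a).length ≤ 2 := by
      unfold stp
      split_ifs <;> simp
    omega

theorem length_lvM (k : ℕ) : (lvM act x i M k).length ≤ 2 ^ k := by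
  induction k with
  | zero => simp [lvM_zero]
  | succ k ih =>
    rw [lvM_succ]
    have h1 := length_flatMap_le (act := act) (x := x) (i := i) (M := M) (lvM act x i M k)
    have h2 : 2 ^ (k + 1) = 2 * 2 ^ k := by ring
    omega

theorem nodup_lvM (k : ℕ) : (lvM act x i M k).Nodup := by
  induction k with
  | zero => simp [lvM_zero]
  | succ k ih =>
    rw [lvM_succ, List.nodup_flatMap]
    constructor
    · intro a _
      unfold stp
      split_ifs <;> simp
    · refine List.Pairwise.imp_of_mem (R := fun a b => a ≠ b) ?_ ih
      intro a c ha hc hne e hea hec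
      obtain ⟨ha1, ha2⟩ := mem_lvM ha
      obtain ⟨hc1, hc2⟩ := mem_lvM hc
      rcases mem_stp.1 hea with ⟨h3, v, rfl⟩ | ⟨h3, rfl⟩
      · rcases mem_stp.1 hec with ⟨h4, w, h5⟩ | ⟨h4, h5⟩
        · exact hne (List.append_inj' h5 rfl).1
        · have h6 : a.length = k := by
            rcases ha2 with h | h
            · exact h
            · exact absurd h3 h
          have h7 : (a ++ [v]).length = c.length := by rw [h5]
          simp only [List.length_append, List.length_singleton] at h7
          omega
      · rcases mem_stp.1 hec with ⟨h4, w, h5⟩ | ⟨h4, h5⟩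
        · have h6 : c.length = k := by
            rcases hc2 with h | h
            · exact h
            · exact absurd h4 h
          have h7 : e.length = (c ++ [w]).length := by rw [h5]
          simp only [List.length_append, List.length_singleton] at h7
          omega
        · exact hne h5

theorem bits_mem (b : ℕ → Bool) (k : ℕ) : PM.bits act x b i M k ∈ lvM act x i M k := by
  induction k with
  | zero => simp [lvM_zero, PM.bits]
  | succ k ih =>
    rw [lvM_succ, List.mem_flatMap]
    refine ⟨_, ih, ?_⟩
    rw [mem_stp, PM.bits]
    split_ifs with h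
    · exact Or.inl ⟨h, _, rfl⟩
    · exact Or.inr ⟨h, rfl⟩

theorem lit_append (a : List Bool) (v : Bool) :
    lit act x i M (a ++ [v]) = lit act x i M a ++ [(act (x, i, M, a) - 4, v)] := by
  unfold lit
  rw [List.length_append, List.length_singleton, List.range_succ, List.map_append]
  congr 1
  · refine List.map_congr_left fun j hj => ?_
    rw [List.mem_range] at hj
    rw [List.take_append_of_le_length hj.le, List.getD_append _ _ _ _ hj]
  · simp

theorem holds (b : ℕ → Bool) (k : ℕ) : ∀ a ∈ lvM act x i M k,
    ((∀ p ∈ lit act x i M a, b p.1 = p.2) ↔ a = PM.bits act x b i M k) := by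
  induction k with
  | zero =>
    intro a ha
    rw [lvM_zero, List.mem_singleton] at ha
    subst ha
    simp [lit, PM.bits]
  | succ k ih =>
    intro a ha
    rw [lvM_succ, List.mem_flatMap] at ha
    obtain ⟨c, hc, hac⟩ := ha
    obtain ⟨h1, h2⟩ := mem_lvM hc
    obtain ⟨hb1, hb2⟩ := mem_lvM (bits_mem (act := act) (x := x) (i := i) (M := M) b k)
    have hi := ih c hc
    rcases mem_stp.1 hac with ⟨h3, v, rfl⟩ | ⟨h3, rfl⟩
    · have h4 : c.length = k := by
        rcases h2 with h2 | h2
        · exact h2
        · exact absurd h3 h2
      have h5 : (∀ p ∈ lit act x i M (c ++ [v]), b p.1 = p.2) ↔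
          (∀ p ∈ lit act x i M c, b p.1 = p.2) ∧ b (act (x, i, M, c) - 4) = v := by
        rw [lit_append]
        simp only [List.mem_append, List.mem_singleton]
        constructor
        · intro h
          exact ⟨fun p hp => h p (Or.inl hp), h (_, v) (Or.inr rfl)⟩
        · rintro ⟨h, h'⟩ p (hp | rfl)
          · exact h p hp
          · exact h'
      rw [h5, hi, PM.bits]
      constructor
      · rintro ⟨h6, h7⟩
        rw [← h6, if_pos h3, h7]
      · intro h6
        split_ifs at h6 with h7
        · obtain ⟨h8, h9⟩ := List.append_inj' h6 rfl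
          refine ⟨h8, ?_⟩
          rw [List.singleton_inj] at h9
          rw [h9, h8]
        · exfalso
          have h8 : (c ++ [v]).length = (PM.bits act x b i M k).length := by rw [h6]
          simp only [List.length_append, List.length_singleton] at h8
          omega
    · rw [hi, PM.bits]
      constructor
      · intro h6
        rw [← h6, if_neg h3]
      · intro h6
        split_ifs at h6 with h7
        · exfalso
          have h8 : a.length = (PM.bits act x b i M k ++
            [b (act (x, i, M, PM.bits act x b i M k) - 4)]).length := by rw [← h6]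
          simp only [List.length_append, List.length_singleton] at h8
          rcases hb2 with hb2 | hb2
          · omega
          · exact hb2 h7
        · exact h6

end

/-- **LVM.** The leaves of a stage. -/
theorem lvm : LvmStmt := fun _ _ _ _ k =>
  ⟨nodup_lvM k, length_lvM k, fun _ ha => (mem_lvM ha).1, fun b => ⟨bits_mem b k, holds b k⟩⟩

end Pool.Agent.Helper81.SM
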