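import Pool.Agent.Helper73.SM.GoalsK

/-!
# Project KR (MP_c307ca_nt): the valuation of `D_n`
-/

set_option autoImplicit false

namespace Pool.Agent.Helper81.SM

open Finset Pool.Agent.Helper73.SM

/-- a positive integer less than `p²` -/
theorem pv_small (p : ℕ) [hp : Fact p.Prime] (a : ℤ) (h0 : 0 < a) (h1 : a < (p : ℤ) ^ 2) :
    padicValInt p a = if (p : ℤ) ∣ a then 1 else 0 := by
  split_ifs with h
  · obtain ⟨b, rfl⟩ := h
    have hp0 : (0 : ℤ) < p := by exact_mod_cast hp.out.pos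
    have hb0 : 0 < b := pos_of_mul_pos_right h0 hp0.le
    have hb : b < p := by
      rw [sq] at h1
      exact lt_of_mul_lt_mul_left h1 hp0.le
    rw [padicValInt.mul hp0.ne' hb0.ne', padicValInt_self,
      padicValInt.eq_zero_of_not_dvd fun h => absurd (Int.le_of_dvd hb0 h) (not_le.2 hb)]
  · exact padicValInt.eq_zero_of_not_dvd h

theorem pv_prod (p : ℕ) [hp : Fact p.Prime] (s : Finset ℕ) (f : ℕ → ℤ)
    (h : ∀ i ∈ s, 0 < f i ∧ f i < (p : ℤ) ^ 2) :
    padicValInt p (∏ i ∈ s, f i) = (s.filter fun i => (p : ℤ) ∣ f i).card := by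
  induction s using Finset.induction_on with
  | empty => simp
  | insert a s ha ih =>
    have h1 := h a (mem_insert_self a s)
    have h2 : ∀ i ∈ s, 0 < f i ∧ f i < (p : ℤ) ^ 2 := fun i hi => h i (mem_insert_of_mem hi)
    rw [prod_insert ha, padicValInt.mul h1.1.ne' (prod_pos fun i hi => (h2 i hi).1).ne', ih h2,
      pv_small p _ h1.1 h1.2, filter_insert]
    split_ifs with h3
    · rw [card_insert_of_notMem (by simp [ha]), add_comm]
    · rw [zero_add]

/-- counting a residue class: `1 ≤ l ≤ n` with `l ≡ c` -/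
theorem cnt (n p c : ℕ) (hc : 1 ≤ c) (hcp : c ≤ p) (P : ℕ → Prop) [DecidablePred P]
    (hP : ∀ j, P j ↔ (p : ℤ) ∣ ((j : ℤ) + 1) - c) :
    ((range n).filter P).card = n / p + if c ≤ n % p then 1 else 0 := by
  have h1 : ∀ j, P j ↔ j ≡ c - 1 [MOD p] := by
    intro j
    rw [hP, Nat.modEq_iff_dvd, ← dvd_neg]
    have : -(((j : ℤ) + 1) - c) = ((c - 1 : ℕ) : ℤ) - j := by
      push_cast [Nat.cast_sub hc]
      ring
    rw [this]
  rw [filter_congr fun j _ => h1 j, ← Nat.count_eq_card_filter_range,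
    Nat.count_modEq_card _ (by omega), Nat.mod_eq_of_lt (by omega : c - 1 < p)]
  congr 1
  split_ifs with h2 h3 h3 <;> omega

theorem pv_fact (n p : ℕ) [hp : Fact p.Prime] (hn : n < p ^ 2) :
    padicValInt p (n.factorial : ℤ) = n / p := by
  have h1 : (n.factorial : ℤ) = ∏ i ∈ range n, ((i : ℤ) + 1) := by
    rw [← prod_range_add_one_eq_factorial]
    push_cast
    rfl
  have hp2 := hp.out.pos
  rw [h1, pv_prod p, cnt n p p (by omega) le_rfl]
  · rw [if_neg (by
      have := Nat.mod_lt n hp2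
      omega), add_zero]
  · intro j
    constructor
    · intro h
      exact dvd_sub h (dvd_refl _)
    · intro h
      have := dvd_add h (dvd_refl (p : ℤ))
      rwa [sub_add_cancel] at this
  · intro i hi
    rw [mem_range] at hi
    constructor
    · positivity
    · have : (i : ℤ) + 1 ≤ n := by exact_mod_cast hi
      have h3 : (n : ℤ) < (p : ℤ) ^ 2 := by exact_mod_cast hn
      omega

theorem pv_ck (hCZ : StmtKCZ) (k m n p c : ℕ) [hp : Fact p.Prime] (hok : Ok k m) (h2k : 2 * k < p)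
    (hn : k * n + k < p ^ 2) (s : ℤ) (hs : s = m ∨ s = -m) (hc : 1 ≤ c) (hcp : c < p)
    (hd : (p : ℤ) ∣ k * c + s) :
    ck k s n n ≠ 0 ∧ padicValInt p (ck k s n n) = if c ≤ n % p then 1 else 0 := by
  obtain ⟨hk, hm, hmk, hcop⟩ := hok
  have hk0 : (0 : ℤ) < k := by omega
  have hmul := hCZ.mul k s n n
  have h1 : ∏ i ∈ range n, ((k : ℤ) * n + s - k * i) = ∏ j ∈ range n, ((k : ℤ) * (j + 1) + s) := by
    rw [← prod_range_reflect]
    refine prod_congr rfl fun j hj => ?_
    rw [mem_range] at hj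
    have : ((n - 1 - j : ℕ) : ℤ) = n - 1 - j := by omega
    rw [this]
    ring
  have hsb : -(k : ℤ) < s ∧ s < k := by
    rcases hs with h | h <;> omega
  have hpos : ∀ i ∈ range n, 0 < (k : ℤ) * ((i : ℤ) + 1) + s ∧
      (k : ℤ) * ((i : ℤ) + 1) + s < (p : ℤ) ^ 2 := by
    intro i hi
    rw [mem_range] at hi
    have h3 : (0 : ℤ) ≤ k * i := by positivity
    have h4 : (k : ℤ) * (i + 1) ≤ k * n := by
      apply mul_le_mul_of_nonneg_left _ hk0.le
      exact_mod_cast hi
    have h5 : (k : ℤ) * n + k < (p : ℤ) ^ 2 := by exact_mod_cast hn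
    constructor
    · rw [mul_add, mul_one]
      omega
    · omega
  have hkd : ¬ (p : ℤ) ∣ (k : ℤ) := by
    intro h
    have := Int.le_of_dvd hk0 h
    omega
  have hpk : padicValInt p ((k : ℤ) ^ n) = 0 := by
    apply padicValInt.eq_zero_of_not_dvd
    intro h
    exact hkd ((Nat.prime_iff_prime_int.1 hp.out).dvd_of_dvd_pow h)
  rw [h1] at hmul
  have hP0 : ∏ j ∈ range n, ((k : ℤ) * (j + 1) + s) ≠ 0 := (prod_pos fun i hi => (hpos i hi).1).ne'
  have hR0 : (k : ℤ) ^ n * ∏ j ∈ range n, ((k : ℤ) * (j + 1) + s) ≠ 0 :=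
    mul_ne_zero (pow_ne_zero _ hk0.ne') hP0
  have hck : ck k s n n ≠ 0 := by
    intro h
    rw [h, zero_mul] at hmul
    exact hR0 hmul.symm
  refine ⟨hck, ?_⟩
  have h6 := congrArg (padicValInt p) hmul
  rw [padicValInt.mul hck (by exact_mod_cast n.factorial_ne_zero),
    padicValInt.mul (pow_ne_zero _ hk0.ne') hP0, hpk, zero_add, pv_prod p _ _ hpos,
    pv_fact n p (by nlinarith), cnt n p c hc hcp.le] at h6
  · omega
  · intro j
    have h7 : (k : ℤ) * (j + 1) + s = k * ((j + 1) - c) + (k * c + s) := by ring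
    rw [h7]
    constructor
    · intro h
      have h8 := (Int.dvd_add_left hd).1 h
      exact ((Nat.prime_iff_prime_int.1 hp.out).dvd_or_dvd h8).resolve_left hkd
    · intro h
      exact dvd_add (Dvd.dvd.mul_left h _) hd

theorem goalKVD (hCZ : StmtKCZ) (hDT : StmtKDT) : StmtKVD := by
  intro k m n p l hok hp h2k hn hpn hl
  have : Fact p.Prime := ⟨hp⟩
  have hok' := hok
  obtain ⟨hk, hm, hmk, hcop⟩ := hok
  obtain ⟨hl1, hl2, hl3⟩ := hl
  have hpI := Nat.prime_iff_prime_int.1 hp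
  have nd : ∀ a : ℕ, 1 ≤ a → a < p → ¬ (p : ℤ) ∣ (a : ℤ) := by
    intro a h1 h2 h
    have := Nat.le_of_dvd h1 (Int.natCast_dvd_natCast.1 h)
    omega
  have hv : ∀ a : ℕ, 1 ≤ a → a < p → padicValInt p (a : ℤ) = 0 := fun a h1 h2 =>
    padicValInt.eq_zero_of_not_dvd (nd a h1 h2)
  have hmul := hDT.mul k m n hm hmk
  have hD := hDT.pos k m n hm hmk
  have main : ∀ c c' : ℕ, 1 ≤ c → c < p → 1 ≤ c' → c' < p → (p : ℤ) ∣ k * c + m →
      (p : ℤ) ∣ k * c' + -(m : ℤ) → padicValInt p (DK k m n) =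
        (if c ≤ n % p then 1 else 0) + if c' ≤ n % p then 1 else 0 := by
    intro c c' h1 h2 h3 h4 h5 h6
    obtain ⟨e1, e2⟩ := pv_ck hCZ k m n p c hok' h2k hn m (Or.inl rfl) h1 h2 h5
    obtain ⟨e3, e4⟩ := pv_ck hCZ k m n p c' hok' h2k hn (-m) (Or.inr rfl) h3 h4 h6
    have h7 := congrArg (padicValInt p) hmul
    have hm0 : (m : ℤ) ≠ 0 := by omega
    have hk0 : (k : ℤ) ≠ 0 := by omega
    have hn1 : ((n : ℤ) + 1) ≠ 0 := by positivity
    have hnv : padicValInt p ((n : ℤ) + 1) = 0 := by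
      apply padicValInt.eq_zero_of_not_dvd
      intro h
      exact hpn (by exact_mod_cast h)
    have h2v : padicValInt p (2 : ℤ) = 0 := hv 2 (by norm_num) (by omega)
    rw [padicValInt.mul (by omega) hn1, hnv, add_zero,
      padicValInt.mul (mul_ne_zero (mul_ne_zero (mul_ne_zero two_ne_zero hm0) hk0) e1) e3,
      padicValInt.mul (mul_ne_zero (mul_ne_zero two_ne_zero hm0) hk0) e1,
      padicValInt.mul (mul_ne_zero two_ne_zero hm0) hk0,
      padicValInt.mul two_ne_zero hm0, h2v, hv m hm (by omega), hv k (by omega) (by omega), e2, e4]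
      at h7
    rw [h7]
    omega
  have hcast : ((p - l : ℕ) : ℤ) = p - l := by omega
  have e5 : (if p - l ≤ n % p then 1 else 0) = if p ≤ n % p + l then 1 else 0 := by
    split_ifs <;> omega
  rcases hl3 with h | h
  · rw [main l (p - l) hl1 (by omega) (by omega) (by omega) h, e5]
    rw [hcast]
    have : (k : ℤ) * (p - l) + -(m : ℤ) = p * k - (k * l + m) := by ring
    rw [this]
    exact dvd_sub (Dvd.intro _ rfl) h
  · rw [main (p - l) l (by omega) (by omega) hl1 (by omega) _ h, e5, add_comm]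
    rw [hcast]
    have : (k : ℤ) * (p - l) + (m : ℤ) = p * k - (k * l - m) := by ring
    rw [this]
    exact dvd_sub (Dvd.intro _ rfl) h

end Pool.Agent.Helper81.SM
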